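import Pool.Agent.MWK.StmtsN

set_option autoImplicit false

/-!
# MWK part N, row NMC: the words `x y t m` are preserved
-/

namespace Pool.Agent.MWK.H23

open Pool.Agent.Helper14_MV Pool.Agent.Helper2_MV Pool.Agent.MWK
open Pool.Agent.MWF (Ap gaml)

theorem nt {β : FIC} {u v w : List ℕ} (h : RR β u v) (h' : RR β v w) : RR β u w := β.trans h h'

/-- double a letter which occurs before -/
theorem dblx {β : FIC} (g : Gw β) (A q : List ℕ) (x : ℕ) (hx : x ∈ A) :
    RR β (A ++ x :: q) (A ++ x :: x :: q) := by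
  obtain ⟨A1, A2, rfl⟩ := List.append_of_mem hx
  have h1 := g.gm.sub (fun c => if c = 0 then [x] else A2)
  have e1 : List.flatMap (fun c => if c = 0 then [x] else A2) [0, 1, 0] = x :: (A2 ++ [x]) := by
    simp
  have e2 : List.flatMap (fun c => if c = 0 then [x] else A2) [0, 1, 0, 0] =
      x :: (A2 ++ [x, x]) := by simp
  rw [e1, e2] at h1
  have h2 := ((RR.refl (β := β) A1).append h1).append (RR.refl (β := β) q)
  have e3 : A1 ++ x :: (A2 ++ [x]) ++ q = A1 ++ x :: A2 ++ x :: q := by simp
  have e4 : A1 ++ x :: (A2 ++ [x, x]) ++ q = A1 ++ x :: A2 ++ x :: x :: q := by simp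
  rw [e3, e4] at h2
  exact h2

/-- exchange of `0` and `1` which occur before -/
theorem exch {β : FIC} (g : Gw β) (hc : RR β [0, 0, 1, 1] [1, 1, 0, 0]) (A q : List ℕ)
    (h0 : 0 ∈ A) (h1 : 1 ∈ A) : RR β (A ++ 0 :: 1 :: q) (A ++ 1 :: 0 :: q) := by
  have s1 := dblx g A (1 :: q) 0 h0
  have s2 := dblx g (A ++ [0, 0]) q 1 (List.mem_append_left _ h1)
  have s3 := ((RR.refl (β := β) A).append hc).append (RR.refl (β := β) q)
  have s4 := dblx g A (0 :: 0 :: q) 1 h1
  have s5 := dblx g (A ++ [1]) q 0 (List.mem_append_left _ h0)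
  have e2 : A ++ [0, 0] ++ 1 :: q = A ++ 0 :: 0 :: 1 :: q := by simp
  have e2' : A ++ [0, 0] ++ 1 :: 1 :: q = A ++ [0, 0, 1, 1] ++ q := by simp
  have e4 : A ++ [1, 1, 0, 0] ++ q = A ++ 1 :: 1 :: 0 :: 0 :: q := by simp
  have e5 : A ++ [1] ++ 0 :: q = A ++ 1 :: 0 :: q := by simp
  have e5' : A ++ [1] ++ 0 :: 0 :: q = A ++ 1 :: 0 :: 0 :: q := by simp
  rw [e2, e2'] at s2
  rw [e4] at s3
  rw [e5, e5'] at s5
  exact nt s1 (nt s2 (nt s3 (nt s4.symm s5.symm)))

/-- the normal form -/
def Nf (m : List ℕ) : List ℕ := (if 0 ∈ m then [0] else []) ++ (if 1 ∈ m then [1] else [])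

theorem nf {β : FIC} (g : Gw β) (hc : RR β [0, 0, 1, 1] [1, 1, 0, 0]) (m : List ℕ) :
    ∀ A : List ℕ, 0 ∈ A → 1 ∈ A → (∀ c ∈ m, c = 0 ∨ c = 1) → RR β (A ++ m) (A ++ Nf m) := by
  induction m with
  | nil => intro A _ _ _; exact RR.refl _
  | cons c m ih =>
    intro A h0 h1 hm
    have h2 := ih (A ++ [c]) (List.mem_append_left _ h0) (List.mem_append_left _ h1)
      (fun d hd => hm d (List.mem_cons_of_mem _ hd))
    have e : A ++ [c] ++ m = A ++ c :: m := by simp
    have e' : A ++ [c] ++ Nf m = A ++ c :: Nf m := by simp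
    rw [e, e'] at h2
    refine nt h2 ?_
    have hA0 : ∀ q, RR β (A ++ 0 :: 0 :: q) (A ++ 0 :: q) := fun q => (dblx g A q 0 h0).symm
    have hA1 : ∀ q, RR β (A ++ 1 :: 1 :: q) (A ++ 1 :: q) := fun q => (dblx g A q 1 h1).symm
    rcases hm c (List.mem_cons_self) with rfl | rfl
    · unfold Nf
      rw [if_pos (List.mem_cons_self : (0 : ℕ) ∈ 0 :: m)]
      by_cases m0 : 0 ∈ m
      · by_cases m1 : 1 ∈ m
        · rw [if_pos m0, if_pos m1, if_pos (List.mem_cons_of_mem _ m1)]
          exact hA0 [1]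
        · rw [if_pos m0, if_neg m1, if_neg (by simpa using m1)]
          exact hA0 []
      · by_cases m1 : 1 ∈ m
        · rw [if_neg m0, if_pos m1, if_pos (List.mem_cons_of_mem _ m1)]
          exact RR.refl _
        · rw [if_neg m0, if_neg m1, if_neg (by simpa using m1)]
          exact RR.refl _
    · unfold Nf
      rw [if_pos (List.mem_cons_self : (1 : ℕ) ∈ 1 :: m)]
      by_cases m0 : 0 ∈ m
      · by_cases m1 : 1 ∈ m
        · rw [if_pos m0, if_pos m1, if_pos (List.mem_cons_of_mem _ m0)]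
          have s1 := (exch g hc A [1] h0 h1).symm
          have s2 := (dblx g (A ++ [0]) [] 1 (List.mem_append_left _ h1)).symm
          have e1 : A ++ [0] ++ [1, 1] = A ++ [0, 1, 1] := by simp
          have e2 : A ++ [0] ++ [1] = A ++ [0, 1] := by simp
          rw [e1, e2] at s2
          exact nt s1 s2
        · rw [if_pos m0, if_neg m1, if_pos (List.mem_cons_of_mem _ m0)]
          exact (exch g hc A [] h0 h1).symm
      · by_cases m1 : 1 ∈ m
        · rw [if_neg m0, if_pos m1, if_neg (by simpa using m0)]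
          exact hA1 []
        · rw [if_neg m0, if_neg m1, if_neg (by simpa using m0)]
          exact RR.refl _

theorem filt (m : List ℕ) (a b : ℕ) (hab : a ≠ b) (hm : ∀ c ∈ m, c = a ∨ c = b) (ha : a ∈ m) :
    ∃ k, 1 ≤ k ∧ m.filter (fun c => decide (c ≠ b)) = List.replicate k a := by
  refine ⟨(m.filter (fun c => decide (c ≠ b))).length, ?_, ?_⟩
  · refine List.length_pos_of_mem (a := a) ?_
    rw [List.mem_filter]
    exact ⟨ha, by simpa using hab⟩
  · refine List.eq_replicate_of_mem fun c hc => ?_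
    rw [List.mem_filter] at hc
    rcases hm c hc.1 with h | h
    · exact h
    · exfalso
      exact (by simpa using hc.2 : c ≠ b) h

/-- a list of `0`, `1` whose filters are `[0]` and `[1]` -/
theorem two_case (b : List ℕ) (h0 : b.filter (fun c => decide (c ≠ 1)) = [0])
    (h1 : b.filter (fun c => decide (c ≠ 0)) = [1]) : b = [0, 1] ∨ b = [1, 0] := by
  have key : ∀ (l : List ℕ) (p : ℕ), l.filter (fun c => decide (c ≠ p)) = [] →
      ∀ c ∈ l, c = p := by
    intro l p h c hc
    by_contra h2
    have h3 : c ∈ l.filter (fun c => decide (c ≠ p)) := by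
      rw [List.mem_filter]
      exact ⟨hc, by simpa using h2⟩
    rw [h] at h3
    exact absurd h3 List.not_mem_nil
  cases b with
  | nil => simp at h0
  | cons x b =>
    by_cases hx0 : x = 0
    · subst hx0
      left
      rw [List.filter_cons_of_pos (by decide)] at h0
      rw [List.filter_cons_of_neg (by decide)] at h1
      have h2 := (List.cons.inj h0).2
      have h3 := key b 1 h2
      have h4 : b.filter (fun c => decide (c ≠ 0)) = b := by
        rw [List.filter_eq_self]
        intro c hc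
        rw [h3 c hc]
        decide
      rw [h4] at h1
      rw [h1]
    · right
      have hx1 : x = 1 := by
        by_contra h
        rw [List.filter_cons_of_pos (by simpa using h)] at h0
        exact hx0 (List.cons.inj h0).1
      subst hx1
      rw [List.filter_cons_of_neg (by decide)] at h0
      rw [List.filter_cons_of_pos (by decide)] at h1
      have h2 := (List.cons.inj h1).2
      have h3 := key b 0 h2
      have h4 : b.filter (fun c => decide (c ≠ 1)) = b := by
        rw [List.filter_eq_self]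
        intro c hc
        rw [h3 c hc]
        decide
      rw [h4] at h0
      rw [h0]

theorem nmc (hCTT : Pool.Agent.MWF.CttStmt) (_hSIM : Pool.Agent.MWF.SimStmt) (hNTY : NtyStmt) :
    NmcStmt := by
  intro β g hc hn w w' h hw
  obtain ⟨m, rfl, hm, m0, m1⟩ := hw
  -- the two filters
  obtain ⟨k, hk, ek⟩ := filt m 0 1 (by decide) hm m0
  obtain ⟨l, hl, el⟩ := filt m 1 0 (by decide) (fun c hcm => (hm c hcm).symm) m1
  have f1 := h.filter (fun c => decide (c ≠ 1))
  have f0 := h.filter (fun c => decide (c ≠ 0))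
  have g1 : (0 :: 1 :: 2 :: m).filter (fun c => decide (c ≠ 1)) = 0 :: 2 :: List.replicate k 0 := by
    rw [List.filter_cons_of_pos (by decide), List.filter_cons_of_neg (by decide),
      List.filter_cons_of_pos (by decide), ek]
  have g0 : (0 :: 1 :: 2 :: m).filter (fun c => decide (c ≠ 0)) = 1 :: 2 :: List.replicate l 1 := by
    rw [List.filter_cons_of_neg (by decide), List.filter_cons_of_pos (by decide),
      List.filter_cons_of_pos (by decide), el]
  rw [g1] at f1
  rw [g0] at f0
  obtain ⟨k', hk', ek'⟩ := hNTY β g 0 2 (by decide) k _ hk f1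
  obtain ⟨l', hl', el'⟩ := hNTY β g 1 2 (by decide) l _ hl f0
  -- the position of `2`
  have h2 : 2 ∈ w' := by
    have h3 : 2 ∈ w'.filter (fun c => decide (c ≠ 1)) := by
      rw [ek']
      simp
    exact (List.mem_filter.1 h3).1
  obtain ⟨b, m', e, hb2⟩ : ∃ b m', w' = b ++ 2 :: m' ∧ 2 ∉ b := by
    obtain ⟨s, t, h4, h5⟩ := List.eq_append_cons_of_mem h2
    exact ⟨s, t, h4, h5⟩
  rw [e, List.filter_append, List.filter_cons_of_pos (by decide)] at ek' el'
  have a1' := (List.append_cons_inj_of_notMem (x₁ := [0]) (z₁ := List.replicate k' 0)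
    (x₂ := b.filter (fun c => decide (c ≠ 1))) (z₂ := m'.filter (fun c => decide (c ≠ 1)))
    (a₁ := 2) (a₂ := 2) (by decide) (by
      intro h9
      exact absurd (List.eq_of_mem_replicate h9) (by decide))).1 ek'.symm
  have a0' := (List.append_cons_inj_of_notMem (x₁ := [1]) (z₁ := List.replicate l' 1)
    (x₂ := b.filter (fun c => decide (c ≠ 0))) (z₂ := m'.filter (fun c => decide (c ≠ 0)))
    (a₁ := 2) (a₂ := 2) (by decide) (by
      intro h9
      exact absurd (List.eq_of_mem_replicate h9) (by decide))).1 el'.symm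
  have a1 := And.intro a1'.1.symm (And.intro a1'.2.1.symm a1'.2.2.symm)
  have a0 := And.intro a0'.1.symm (And.intro a0'.2.1.symm a0'.2.2.symm)
  have hm' : ∀ c ∈ m', c = 0 ∨ c = 1 := by
    intro c hcm
    by_cases h7 : c = 1
    · exact Or.inr h7
    · left
      have h8 : c ∈ m'.filter (fun c => decide (c ≠ 1)) := by
        rw [List.mem_filter]
        exact ⟨hcm, by simpa using h7⟩
      rw [a1.2.2] at h8
      exact List.eq_of_mem_replicate h8
  have m0' : 0 ∈ m' := by
    have h8 : 0 ∈ m'.filter (fun c => decide (c ≠ 1)) := by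
      rw [a1.2.2, List.mem_replicate]
      exact ⟨by omega, rfl⟩
    exact (List.mem_filter.1 h8).1
  have m1' : 1 ∈ m' := by
    have h8 : 1 ∈ m'.filter (fun c => decide (c ≠ 0)) := by
      rw [a0.2.2, List.mem_replicate]
      exact ⟨by omega, rfl⟩
    exact (List.mem_filter.1 h8).1
  rcases two_case b a1.1 a0.1 with rfl | rfl
  · exact ⟨m', by rw [e]; rfl, hm', m0', m1'⟩
  · exfalso
    apply hn
    have n1 := nf g hc m [0, 1, 2] (by decide) (by decide) hm
    have n2 := nf g hc m' [1, 0, 2] (by decide) (by decide) hm'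
    unfold Nf at n1 n2
    rw [if_pos m0, if_pos m1] at n1
    rw [if_pos m0', if_pos m1'] at n2
    rw [e] at h
    exact nt n1.symm (nt h n2)

end Pool.Agent.MWK.H23
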